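import Pool.Agent.Q267.E8.Stm2

/-!
# Project E8, second part, job C2: the closed form
-/

set_option autoImplicit false

namespace Pool.Agent.Q64.E8

open Finset Pool.Agent.Q267.CDE Pool.Agent.Q267.MW Pool.Agent.Q267.E8

theorem bR_zero (p : ℕ) (x : R p) : bR p x 0 = 1 := by
  unfold bR
  simp

theorem bR_sq (p : ℕ) [Fact p.Prime] (c : R p) (k : ℕ) : bR p (p * c) (k + 1) ^ 2 = 0 := by
  unfold bR
  rw [prod_range_succ', mul_pow, mul_pow]
  have h : ((p : R p) * c - ((0 : ℕ) : R p)) ^ 2 = 0 := by
    rw [Nat.cast_zero, sub_zero, mul_pow, p_sq, zero_mul]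
  rw [h, mul_zero, zero_mul]

theorem t2_zero (p : ℕ) [hp : Fact p.Prime] (c : R p) : T2 p (p * c) = 1 := by
  unfold T2
  obtain ⟨n, hn⟩ : ∃ n, p = n + 1 := ⟨p - 1, by have := hp.out.one_lt; omega⟩
  have e : range p = range (n + 1) := by rw [← hn]
  rw [e, sum_range_succ', bR_zero, pow_zero, one_pow, mul_one]
  rw [sum_eq_zero, zero_add]
  intro k _
  rw [bR_sq, mul_zero]

theorem c2 : S_RT → S_C2 := by
  intro hRT p hpp c l hp2
  induction l with
  | zero =>
    intro _
    have e : (p : R p) * lift p (H (ZMod p) (2 * 0) - H (ZMod p) 0) = p * 0 := by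
      apply p_mul_eq
      rw [red_lift, map_zero, mul_zero, H_zero]
      ring
    have e0 : (p : R p) * c + 2 * ((0 : ℕ) : R p) = p * c := by
      push_cast
      ring
    have e1 : (((2 * 0).choose 0 : ℕ) : R p) = 1 := by norm_num
    rw [e0, pow_zero, one_mul, t2_zero, e1]
    linear_combination (-c) * e
  | succ l ih =>
    intro hl
    have ih := ih (by omega)
    have n1 : ((2 : ZMod p) * l + 2) ≠ 0 := by
      have := cast_ne p (2 * l + 2) (by omega) (by omega)
      push_cast at this
      exact this
    have n2 : ((2 : ZMod p) * l + 1) ≠ 0 := by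
      have := cast_ne p (2 * l + 1) (by omega) (by omega)
      push_cast at this
      exact this
    have n3 : ((l : ZMod p) + 1) ≠ 0 := by
      have := cast_ne p (l + 1) (by omega) (by omega)
      push_cast at this
      exact this
    have rx : red p ((p : R p) * c + 2 * (l : R p)) = 2 * l := by
      rw [map_add, map_mul, map_mul, red_nat, red_nat, CharP.cast_eq_zero, zero_mul, zero_add,
        map_ofNat]
    have hr := hRT p ((p : R p) * c + 2 * (l : R p)) hp2 (by
      rw [rx]
      intro h1
      apply n2
      rw [h1]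
      ring) (by
      rw [rx]
      intro h1
      apply n1
      rw [h1]
      ring)
    have ex : (p : R p) * c + 2 * ((l + 1 : ℕ) : R p) = p * c + 2 * (l : R p) + 2 := by
      push_cast
      ring
    have u1 : IsUnit ((p : R p) * c + 2 * (l : R p) + 2) := by
      apply isUnit_of_red
      rw [map_add, rx, map_ofNat]
      exact n1
    have u2 : IsUnit ((l : R p) + 1) := by
      have := isUnit_nat p (l + 1) (by omega) (by omega)
      push_cast at this
      exact this
    have hc : ((l : R p) + 1) * (((2 * (l + 1)).choose (l + 1) : ℕ) : R p) =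
        2 * (2 * (l : R p) + 1) * (((2 * l).choose l : ℕ) : R p) := by
      have h1 := Nat.succ_mul_centralBinom_succ l
      unfold Nat.centralBinom at h1
      have h2 := congrArg (Nat.cast : ℕ → R p) h1
      push_cast at h2 ⊢
      exact h2
    have key : (p : R p) * ((2 * (l : R p) + 1) * (2 * (l : R p) + 2) *
          lift p (H (ZMod p) (2 * (l + 1)) - H (ZMod p) (l + 1))) =
        p * (1 + (2 * (l : R p) + 1) * (2 * (l : R p) + 2) *
          lift p (H (ZMod p) (2 * l) - H (ZMod p) l)) := by
      apply p_mul_eq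
      simp only [map_mul, map_add, map_one, map_ofNat, red_lift, red_nat]
      rw [show 2 * (l + 1) = 2 * l + 1 + 1 by ring, H_succ, H_succ, H_succ]
      push_cast
      have n1' : ((2 : ZMod p) * l + 1 + 1) ≠ 0 := by
        intro h1
        apply n1
        linear_combination h1
      field_simp
      ring
    rw [ex]
    apply u1.mul_left_cancel
    apply u2.mul_left_cancel
    have hp := p_sq p
    set D' := lift p (H (ZMod p) (2 * (l + 1)) - H (ZMod p) (l + 1))
    set D := lift p (H (ZMod p) (2 * l) - H (ZMod p) l)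
    rw [pow_succ (-1 : R p) l]
    set s : R p := (-1) ^ l
    linear_combination ((l : R p) + 1) * hr -
      4 * ((l : R p) + 1) * (p * c + 2 * l + 1) * ih +
      ((p : R p) * c + 2 * l + 2) * s * (1 + p * c * D') * hc +
      2 * c * s * (((2 * l).choose l : ℕ) : R p) * key +
      s * (((2 * l).choose l : ℕ) : R p) * c ^ 2 * (2 * (2 * (l : R p) + 1) * D' -
        2 * (2 * (l : R p) + 2) * D) * hp

end Pool.Agent.Q64.E8
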